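import Pool.Agent.Helper3.TD.Change
import Pool.Agent.Helper3.TD.MixK
import Pool.Agent.Helper3.TD.Kern1

/-! Preimages under the accelerated map, good words, densities: definitions for the positive density theorem. -/

namespace Pool.Agent.Helper1.PD

open Pool.Agent.Helper3.ND Pool.Agent.Helper3.TD

open Classical in
/-- the preimages of `X` under `T ^ t` -/
noncomputable def Pre (t : ℕ) (X : ℤ) : Finset ℤ :=
  ((Finset.range (2 ^ t)).filter (fun r : ℕ => (3 : ℤ) ^ od t (r : ℤ) ∣ X - T^[t] (r : ℤ))).image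
    (fun r : ℕ => nn t r X)

/-- the weight `3 ^ k / 2 ^ t` of a preimage -/
noncomputable def wt (t : ℕ) (N : ℤ) : ℝ := (3 : ℝ) ^ od t N / 2 ^ t

/-- total density of the typical preimages at depth `r` -/
noncomputable def fr (r : ℕ) (X : ℤ) : ℝ := ∑ k ∈ KS r 0, D k r k (fun _ => True) X

/-- linear condition on the number of odd steps -/
def Jt (t k : ℕ) : Prop := 199 * t ≤ 400 * k ∧ 400 * k ≤ 201 * t

/-- good preimages -/
def Gn (t : ℕ) (V : ℝ) (N : ℤ) : Prop := Jt t (od t N) ∧ (cc t N : ℝ) ≤ V * 2 ^ t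

/-- good residues for words of length `r + s` (first `r` steps, then `s` steps) -/
def Gd (r s : ℕ) (A : ℝ) (y : ℕ) : Prop :=
  TypK r (od r (y : ℤ)) ∧ Jt s (od s (yy r s (y : ℤ) : ℤ)) ∧ (cc s (yy r s (y : ℤ) : ℤ) : ℝ) ≤ A * 2 ^ s

open Classical in
/-- the truncated density -/
noncomputable def u (t r : ℕ) (V : ℝ) (X : ℤ) : ℝ := ∑ N ∈ Pre t X, if Gn t V N then wt t N * fr r N else 0

theorem mem_Pre {t : ℕ} {X N : ℤ} : N ∈ Pre t X ↔ T^[t] N = X := by
  classical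
  unfold Pre
  rw [Finset.mem_image]
  constructor
  · rintro ⟨r, hr, rfl⟩
    rw [Finset.mem_filter] at hr
    exact nn_T t r X hr.2
  · rintro rfl
    have hp : (0 : ℤ) < 2 ^ t := by positivity
    obtain ⟨h1, h2⟩ := nn_self t N
    refine ⟨(N % 2 ^ t).toNat, ?_, h2⟩
    rw [Finset.mem_filter, Finset.mem_range]
    refine ⟨?_, h1⟩
    have h3 : (((N % 2 ^ t).toNat : ℕ) : ℤ) = N % 2 ^ t := Int.toNat_of_nonneg (Int.emod_nonneg _ hp.ne')
    have := Int.emod_lt_of_pos N hp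
    rw [← h3] at this
    exact_mod_cast this

theorem nn_inj {t : ℕ} {X : ℤ} {r r' : ℕ} (hr : r < 2 ^ t) (hr' : r' < 2 ^ t) (h : nn t r X = nn t r' X) : r = r' := by
  have h1 := nn_mod t r hr X
  have h2 := nn_mod t r' hr' X
  rw [h, h2] at h1
  exact_mod_cast h1.symm

open Classical in
theorem sum_Pre (t : ℕ) (X : ℤ) (φ : ℤ → ℝ) : ∑ N ∈ Pre t X, φ N =
    ∑ r ∈ Finset.range (2 ^ t), if (3 : ℤ) ^ od t (r : ℤ) ∣ X - T^[t] (r : ℤ) then φ (nn t r X) else 0 := by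
  unfold Pre
  rw [Finset.sum_image, Finset.sum_filter]
  intro r hr r' hr' h
  rw [Finset.mem_coe, Finset.mem_filter, Finset.mem_range] at hr hr'
  exact nn_inj hr.1 hr'.1 h

theorem sum_Pre_add (t s : ℕ) (X : ℤ) (φ : ℤ → ℝ) :
    ∑ M ∈ Pre (t + s) X, φ M = ∑ N ∈ Pre t X, ∑ M ∈ Pre s N, φ M := by
  classical
  have h : Pre (t + s) X = (Pre t X).biUnion (fun N => Pre s N) := by
    ext M
    rw [mem_Pre, Finset.mem_biUnion, Function.iterate_add_apply]
    constructor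
    · intro h
      exact ⟨T^[s] M, mem_Pre.mpr h, mem_Pre.mpr rfl⟩
    · rintro ⟨N, h1, h2⟩
      rw [mem_Pre] at h1 h2
      rw [h2, h1]
  rw [h, Finset.sum_biUnion]
  intro N _ N' _ hne
  rw [Function.onFun, Finset.disjoint_left]
  intro M h1 h2
  rw [mem_Pre] at h1 h2
  exact hne (h1.symm.trans h2)

theorem wt_pos (t : ℕ) (N : ℤ) : 0 < wt t N := by unfold wt; positivity

theorem wt_add (t s : ℕ) (M : ℤ) : wt (t + s) M = wt t (T^[s] M) * wt s M := by
  unfold wt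
  rw [add_comm t s, od_add, pow_add, pow_add]
  field_simp

theorem nn_cc (t r : ℕ) (X : ℤ) : cc t (nn t r X) = cc t (r : ℤ) := by
  unfold nn
  exact cc_shift t _ _

theorem nn_emod (t r : ℕ) (hr : r < 2 ^ t) (X : ℤ) : (nn t r X % 2 ^ t).toNat = r := by
  rw [nn_mod t r hr X]
  simp

open Classical in
/-- densities as sums over preimages -/
theorem D_eq (k t : ℕ) (P : ℕ → Prop) (X : ℤ) : D k t k P X =
    ∑ N ∈ Pre t X, if od t N = k ∧ P (N % 2 ^ t).toNat then wt t N else 0 := by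
  rw [sum_Pre]
  unfold D
  apply Finset.sum_congr rfl
  intro r hr
  rw [Finset.mem_range] at hr
  rw [nn_od, nn_emod t r hr]
  unfold wt
  rw [nn_od]
  by_cases h3 : (3 : ℤ) ^ od t (r : ℤ) ∣ X - T^[t] (r : ℤ)
  · rw [if_pos h3]
    by_cases h1 : od t (r : ℤ) = k ∧ P r
    · rw [if_pos h1, if_pos ⟨h1.1, h1.2, by rw [← h1.1]; exact h3⟩, h1.1]
    · rw [if_neg h1]
      apply if_neg
      rintro ⟨a1, a2, _⟩
      exact h1 ⟨a1, a2⟩
  · rw [if_neg h3]
    apply if_neg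
    rintro ⟨a1, _, a3⟩
    rw [← a1] at a3
    exact h3 a3

open Classical in
/-- sums of densities over sets of numbers of odd steps -/
theorem D_eq_sum (S : Finset ℕ) (t : ℕ) (P : ℕ → Prop) (X : ℤ) : ∑ k ∈ S, D k t k P X =
    ∑ N ∈ Pre t X, if od t N ∈ S ∧ P (N % 2 ^ t).toNat then wt t N else 0 := by
  rw [Finset.sum_congr rfl (fun k _ => D_eq k t P X), Finset.sum_comm]
  apply Finset.sum_congr rfl
  intro N _
  by_cases h1 : od t N ∈ S
  · rw [Finset.sum_eq_single_of_mem _ h1]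
    · by_cases h2 : P (N % 2 ^ t).toNat
      · rw [if_pos ⟨rfl, h2⟩, if_pos ⟨h1, h2⟩]
      · rw [if_neg (fun h => h2 h.2), if_neg (fun h => h2 h.2)]
    · intro k _ hne
      rw [if_neg (fun h => hne h.1.symm)]
  · rw [if_neg (fun h => h1 h.1)]
    apply Finset.sum_eq_zero
    intro k hk
    rw [if_neg]
    rintro ⟨h, _⟩
    rw [h] at h1
    exact h1 hk

theorem fr_nonneg (r : ℕ) (X : ℤ) : 0 ≤ fr r X := Finset.sum_nonneg (fun _ _ => D_nonneg _ _ _ _ _)

theorem mem_KS {t m k : ℕ} : k ∈ KS t m ↔ k ≤ t ∧ m ≤ k ∧ TypK t k := by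
  classical
  unfold KS
  rw [Finset.mem_filter, Finset.mem_range, Nat.lt_succ_iff]

end Pool.Agent.Helper1.PD
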