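import Pool.Agent.Helper1.PD.Stmts

/-! Iteration over the scales. -/

namespace Pool.Agent.Helper1.PD

open Pool.Agent.Helper3.ND Pool.Agent.Helper3.TD Filter Topology

theorem fr_per {R0 : ℕ} (hT : ∀ r : ℕ, R0 ≤ r → ∀ k : ℕ, TypK r k → Jt r k) {r K : ℕ} (hr : R0 ≤ r)
    (hK : 201 * r ≤ 400 * K) : Per K (fr r) ∧ ∀ k ∈ KS r 0, k ≤ K := by
  have h1 : ∀ k ∈ KS r 0, k ≤ K := by
    intro k hk
    have h2 := (hT r hr k (mem_KS.mp hk).2.2).2
    omega
  refine ⟨?_, h1⟩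
  intro x
  unfold fr
  apply Finset.sum_congr rfl
  intro k hk
  exact (D_per k r k _).le (h1 k hk) x

/-- the bound for `Y` at scale `t` -/
noncomputable def Vt (t : ℕ) : ℝ := 10001 - 1 / (t : ℝ)

theorem pow_J {t k : ℕ} (h : Jt t k) : 3 ^ (5 * k) ≤ 2 ^ (4 * t) := by
  have h1 : (3 ^ (5 * k)) ^ 80 ≤ (2 ^ (4 * t)) ^ 80 := by
    calc (3 ^ (5 * k)) ^ 80 = 3 ^ (400 * k) := by rw [← pow_mul]; congr 1; ring
      _ ≤ 3 ^ (201 * t) := Nat.pow_le_pow_right (by norm_num) h.2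
      _ = (3 ^ 201) ^ t := by rw [pow_mul]
      _ ≤ (2 ^ 320) ^ t := Nat.pow_le_pow_left (by decide +kernel) t
      _ = (2 ^ (4 * t)) ^ 80 := by rw [← pow_mul, ← pow_mul]; congr 1; ring
  exact (Nat.pow_le_pow_iff_left (by norm_num)).mp h1

theorem exists_exp : ∃ T : ℕ, 4000 ≤ T ∧ ∀ t : ℕ, T ≤ t → (42 * (t : ℝ) ^ 11) ^ 5 ≤ 2 ^ t := by
  have h1 := tendsto_pow_const_div_const_pow_of_one_lt 55 (show (1 : ℝ) < 2 by norm_num)
  have h2 : ∀ᶠ n : ℕ in atTop, (n : ℝ) ^ 55 / 2 ^ n < 1 / 42 ^ 5 := (tendsto_order.1 h1).2 _ (by positivity)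
  rw [eventually_atTop] at h2
  obtain ⟨T, hT⟩ := h2
  refine ⟨max T 4000, le_max_right _ _, ?_⟩
  intro t ht
  have h3 := hT t (le_trans (le_max_left _ _) ht)
  rw [div_lt_div_iff₀ (by positivity) (by positivity)] at h3
  calc (42 * (t : ℝ) ^ 11) ^ 5 = (t : ℝ) ^ 55 * 42 ^ 5 := by ring
    _ ≤ 1 * 2 ^ t := h3.le
    _ = 2 ^ t := one_mul _

theorem Vt_step {t : ℕ} (h4 : 4000 ≤ t) (ht : (42 * (t : ℝ) ^ 11) ^ 5 ≤ 2 ^ t) (k : ℕ) (hk : Jt t k) :
    Vt t + (t : ℝ) ^ 10 * (3 ^ k / 2 ^ t) ≤ Vt (t + t / 20) := by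
  have ht0 : (4000 : ℝ) ≤ t := by exact_mod_cast h4
  have htp : (0 : ℝ) < t := by linarith
  have h1 : 42 * (t : ℝ) ^ 11 * (3 ^ k / 2 ^ t) ≤ 1 := by
    by_contra hc
    rw [not_le] at hc
    have h2 : (1 : ℝ) < (42 * (t : ℝ) ^ 11 * (3 ^ k / 2 ^ t)) ^ 5 := one_lt_pow₀ hc (by norm_num)
    have h3 : ((3 : ℝ) ^ k / 2 ^ t) ^ 5 ≤ 1 / 2 ^ t := by
      rw [div_pow, ← pow_mul, ← pow_mul, div_le_div_iff₀ (by positivity) (by positivity)]
      have h5 : ((3 ^ (5 * k) : ℕ) : ℝ) ≤ ((2 ^ (4 * t) : ℕ) : ℝ) := by exact_mod_cast pow_J hk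
      push_cast at h5
      calc (3 : ℝ) ^ (k * 5) * 2 ^ t = 3 ^ (5 * k) * 2 ^ t := by rw [mul_comm k 5]
        _ ≤ 2 ^ (4 * t) * 2 ^ t := by gcongr
        _ = 1 * 2 ^ (t * 5) := by rw [← pow_add, one_mul]; congr 1; ring
    have h6 : (42 * (t : ℝ) ^ 11 * (3 ^ k / 2 ^ t)) ^ 5 ≤ 1 := by
      rw [mul_pow]
      calc (42 * (t : ℝ) ^ 11) ^ 5 * (3 ^ k / 2 ^ t) ^ 5 ≤ 2 ^ t * (1 / 2 ^ t) := by
            apply mul_le_mul ht h3 (by positivity) (by positivity)
        _ = 1 := by field_simp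
    linarith
  have hs1 : (t / 20 : ℕ) ≤ t := Nat.div_le_self _ _
  have hs2 : t ≤ 21 * (t / 20) := by omega
  obtain ⟨s, hs⟩ : ∃ s : ℕ, s = t / 20 := ⟨_, rfl⟩
  rw [← hs] at hs1 hs2 ⊢
  have hs1r : (s : ℝ) ≤ t := by exact_mod_cast hs1
  have hs2r : (t : ℝ) ≤ 21 * s := by exact_mod_cast hs2
  have hs0 : (0 : ℝ) < s := by linarith
  unfold Vt
  push_cast
  have h2 : (t : ℝ) ^ 10 * (3 ^ k / 2 ^ t) ≤ 1 / (42 * t) := by
    rw [le_div_iff₀ (by positivity)]
    calc (t : ℝ) ^ 10 * (3 ^ k / 2 ^ t) * (42 * t) = 42 * (t : ℝ) ^ 11 * (3 ^ k / 2 ^ t) := by ring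
      _ ≤ 1 := h1
  have h3 : 1 / (42 * (t : ℝ)) ≤ 1 / (t : ℝ) - 1 / ((t : ℝ) + s) := by
    rw [div_sub_div _ _ (by positivity) (by positivity), div_le_div_iff₀ (by positivity) (by positivity)]
    nlinarith
  linarith

open Classical in
theorem step_ev (hT : ST_TYP) (hM : ST_MIX) (hG : ST_GDM) : ∃ T : ℕ, 4000 ≤ T ∧ ∀ t : ℕ, T ≤ t → ∀ X : ℤ,
    u t (t / 16) (Vt t) X - 1 / (t : ℝ) ^ 2 ≤ u (t + t / 20) ((t + t / 20) / 16) (Vt (t + t / 20)) X := by
  obtain ⟨R0, hT⟩ := hT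
  obtain ⟨C1, hC1, m0, hM⟩ := hM 4
  obtain ⟨C2, hC2, R1, hG⟩ := hG 4
  obtain ⟨T0, hT0, hE⟩ := exists_exp
  obtain ⟨C3, hC3⟩ : ∃ C3 : ℝ, C3 = 2 * (C1 * 4000 ^ 4) + (C2 * 4000 ^ 4 + C2 * 4000 ^ 4 + 11) := ⟨_, rfl⟩
  have hC3p : 0 < C3 := by rw [hC3]; positivity
  obtain ⟨T1, hT1⟩ := exists_nat_ge (2 * 10002 * C3)
  refine ⟨max T0 (max (2000 * m0 + 2000) (max (32 * R0 + 32) (max (32 * R1 + 32) T1))), le_trans hT0 (le_max_left _ _), ?_⟩
  intro t ht X
  simp only [max_le_iff] at ht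
  obtain ⟨ht0, htm, htR0, htR1, ht1⟩ := ht
  have h4000 : 4000 ≤ t := le_trans hT0 ht0
  have ht4 : (4000 : ℝ) ≤ t := by exact_mod_cast h4000
  have htp : (0 : ℝ) < t := by linarith
  obtain ⟨s, hs⟩ : ∃ s : ℕ, s = t / 20 := ⟨_, rfl⟩
  obtain ⟨r, hr⟩ : ∃ r : ℕ, r = t / 16 := ⟨_, rfl⟩
  obtain ⟨m, hm⟩ : ∃ m : ℕ, m = t / 2000 := ⟨_, rfl⟩
  obtain ⟨K, hK⟩ : ∃ K : ℕ, K = t / 8 := ⟨_, rfl⟩
  rw [← hs, ← hr]
  obtain ⟨r', hr'⟩ : ∃ r' : ℕ, r' = (t + s) / 16 := ⟨_, rfl⟩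
  rw [← hr']
  have hfr1 := fr_per hT (r := r' + s) (K := K) (by omega) (by omega)
  have hfr2 := fr_per hT (r := r) (K := K) (by omega) (by omega)
  have hVt0 : 0 ≤ Vt t := by
    unfold Vt
    have : 1 / (t : ℝ) ≤ 1 := by rw [div_le_one htp]; linarith
    linarith
  have hVt1 : Vt t + 1 ≤ 10002 := by
    unfold Vt
    have : 0 ≤ 1 / (t : ℝ) := by positivity
    linarith
  have hV := Vt_step h4000 (hE t ht0)
  rw [← hs] at hV
  have hst := step (t := t) (s := s) (r := r) (r' := r') (K := K) (V := Vt t) (V' := Vt (t + s)) (A := (t : ℝ) ^ 10)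
    (by omega) hVt0 hV hfr1.1 hfr2.1 hfr1.2 X
  have h1 := hM m (r' + s) K (by omega) (by omega) (by omega) (by omega)
  have h2 := hM m r K (by omega) (by omega) (by omega) (by omega)
  have h3 : Av K (fun x => |fr (r' + s) x - fr r x|) ≤ C1 / (m : ℝ) ^ 4 + C1 / (m : ℝ) ^ 4 := by
    refine le_trans ?_ (add_le_add h1 h2)
    rw [← Av_add]
    apply Av_mono
    intro x
    have e : fr (r' + s) x - fr r x = (fr (r' + s) x - dl m (3 * m) x) - (fr r x - dl m (3 * m) x) := by ring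
    rw [e]
    exact abs_sub _ _
  have h5 := le_trans (Av_bb ((t : ℝ) ^ 10) hfr1.2) (hG r' s (by omega) (by omega) ((t : ℝ) ^ 10) (one_le_pow₀ (by linarith)))
  have hsq : Real.sqrt ((t : ℝ) ^ 10) = (t : ℝ) ^ 5 := by
    rw [show (t : ℝ) ^ 10 = ((t : ℝ) ^ 5) ^ 2 by ring, Real.sqrt_sq (by positivity)]
  rw [hsq] at h5
  have hmr : (t : ℝ) ≤ 4000 * m := by
    have : t ≤ 4000 * m := by omega
    exact_mod_cast this
  have hsr : (t : ℝ) ≤ 4000 * s := by
    have : t ≤ 4000 * s := by omega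
    exact_mod_cast this
  have hrr : (t : ℝ) ≤ 4000 * r' := by
    have : t ≤ 4000 * r' := by omega
    exact_mod_cast this
  have hgen : ∀ C y : ℝ, 0 < C → (t : ℝ) ≤ 4000 * y → C / y ^ 4 ≤ C * 4000 ^ 4 / (t : ℝ) ^ 4 := by
    intro C y hC hy
    have hy0 : 0 < y := by linarith
    rw [div_le_div_iff₀ (by positivity) (by positivity)]
    have h6 := pow_le_pow_left₀ htp.le hy 4
    rw [mul_pow] at h6
    calc C * (t : ℝ) ^ 4 ≤ C * (4000 ^ 4 * y ^ 4) := mul_le_mul_of_nonneg_left h6 hC.le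
      _ = _ := by ring
  have h11 : 11 / (t : ℝ) ^ 5 ≤ 11 / (t : ℝ) ^ 4 := by
    apply div_le_div_of_nonneg_left (by norm_num) (by positivity)
    exact pow_le_pow_right₀ (by linarith) (by norm_num)
  have h6 : Av K (fun x => |fr (r' + s) x - fr r x|) + Av K (bb r' s ((t : ℝ) ^ 10)) ≤ C3 / (t : ℝ) ^ 4 := by
    have a1 := hgen C1 m hC1 hmr
    have a2 := hgen C2 s hC2 hsr
    have a3 := hgen C2 r' hC2 hrr
    have e : C3 / (t : ℝ) ^ 4 = (C1 * 4000 ^ 4 / (t : ℝ) ^ 4 + C1 * 4000 ^ 4 / (t : ℝ) ^ 4) +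
        (C2 * 4000 ^ 4 / (t : ℝ) ^ 4 + C2 * 4000 ^ 4 / (t : ℝ) ^ 4 + 11 / (t : ℝ) ^ 4) := by
      rw [hC3]; ring
    rw [e]
    linarith
  have h7 : ((t : ℝ) + 1) * ((Vt t + 1) * (Av K (fun x => |fr (r' + s) x - fr r x|) + Av K (bb r' s ((t : ℝ) ^ 10)))) ≤ 1 / (t : ℝ) ^ 2 := by
    calc ((t : ℝ) + 1) * ((Vt t + 1) * (Av K (fun x => |fr (r' + s) x - fr r x|) + Av K (bb r' s ((t : ℝ) ^ 10))))
        ≤ (2 * t) * (10002 * (C3 / (t : ℝ) ^ 4)) := by
          apply mul_le_mul (by linarith) _ _ (by positivity)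
          · apply mul_le_mul hVt1 h6 _ (by norm_num)
            exact add_nonneg (Av_nonneg (fun x => abs_nonneg _)) (Av_nonneg (fun x => bb_nonneg _ _ _ _))
          · apply mul_nonneg (by linarith)
            exact add_nonneg (Av_nonneg (fun x => abs_nonneg _)) (Av_nonneg (fun x => bb_nonneg _ _ _ _))
      _ = (2 * 10002 * C3) / (t : ℝ) ^ 3 := by field_simp
      _ ≤ t / (t : ℝ) ^ 3 := by
          apply div_le_div_of_nonneg_right _ (by positivity)
          refine le_trans hT1 ?_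
          exact_mod_cast ht1
      _ = 1 / (t : ℝ) ^ 2 := by field_simp
  linarith

theorem u_mono {t r : ℕ} {V V' : ℝ} (h : V ≤ V') (X : ℤ) : u t r V X ≤ u t r V' X := by
  classical
  unfold u
  apply Finset.sum_le_sum
  intro N _
  have h0 : 0 ≤ wt t N * fr r N := mul_nonneg (wt_pos _ _).le (fr_nonneg _ _)
  by_cases h1 : Gn t V N
  · have h2 : Gn t V' N := by
      refine ⟨h1.1, le_trans h1.2 ?_⟩
      have : (0 : ℝ) < 2 ^ t := by positivity
      nlinarith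
    rw [if_pos h1, if_pos h2]
  · rw [if_neg h1]
    split_ifs
    · exact h0
    · exact le_rfl

open Classical in
/-- the total mass of the typical numbers of odd steps -/
theorem mass_typ {n : ℕ} (hn : 10 ^ 3 ≤ n) :
    1 - 2 * Real.exp (-((n : ℝ) ^ (1 / 10 : ℝ))) ≤ ∑ k ∈ KS n 0, mass n k (fun _ => True) := by
  have h1 := card_out hn (m := 0) (by omega) (Finset.range (n + 1) \ KS n 0) (fun k hk => (Finset.mem_sdiff.mp hk).2)
  have h2 : ∑ k ∈ KS n 0, mass n k (fun _ => True) +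
      (((Finset.range (2 ^ n)).filter (fun r : ℕ => od n (r : ℤ) ∈ Finset.range (n + 1) \ KS n 0)).card : ℝ) / 2 ^ n = 1 := by
    unfold mass
    rw [← Finset.sum_div, ← add_div, div_eq_one_iff_eq (by positivity)]
    have h3 : ∑ k ∈ KS n 0, ((Finset.range (2 ^ n)).filter (fun r : ℕ => od n (r : ℤ) = k ∧ True)).card +
        ((Finset.range (2 ^ n)).filter (fun r : ℕ => od n (r : ℤ) ∈ Finset.range (n + 1) \ KS n 0)).card = 2 ^ n := by
      rw [← Finset.card_biUnion]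
      · rw [← Finset.card_union_of_disjoint]
        · have : (KS n 0).biUnion (fun k => (Finset.range (2 ^ n)).filter (fun r : ℕ => od n (r : ℤ) = k ∧ True)) ∪
              (Finset.range (2 ^ n)).filter (fun r : ℕ => od n (r : ℤ) ∈ Finset.range (n + 1) \ KS n 0) = Finset.range (2 ^ n) := by
            ext r
            rw [Finset.mem_union, Finset.mem_biUnion, Finset.mem_filter, Finset.mem_sdiff, Finset.mem_range (n := n + 1)]
            constructor
            · rintro (⟨k, _, hk⟩ | h)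
              · exact (Finset.mem_filter.mp hk).1
              · exact h.1
            · intro h
              by_cases h4 : od n (r : ℤ) ∈ KS n 0
              · left
                exact ⟨_, h4, Finset.mem_filter.mpr ⟨h, rfl, trivial⟩⟩
              · right
                refine ⟨h, ?_, h4⟩
                have := od_le n (r : ℤ)
                omega
          rw [this, Finset.card_range]
        · rw [Finset.disjoint_left]
          intro r hr hr'
          rw [Finset.mem_biUnion] at hr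
          obtain ⟨k, hk1, hk⟩ := hr
          rw [Finset.mem_filter] at hk hr'
          rw [Finset.mem_sdiff, hk.2.1] at hr'
          exact hr'.2.2 hk1
      · intro k _ k' _ hne
        rw [Function.onFun, Finset.disjoint_left]
        intro r hr hr'
        rw [Finset.mem_filter] at hr hr'
        exact hne (hr.2.1.symm.trans hr'.2.1)
    have h4 := congrArg (Nat.cast : ℕ → ℝ) h3
    rw [Nat.cast_add, Nat.cast_sum, Nat.cast_pow, Nat.cast_ofNat] at h4
    refine Eq.trans ?_ h4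
    congr 1
    refine Finset.sum_congr rfl (fun k _ => ?_)
    congr
  linarith

theorem exists_ge_av {K : ℕ} {f : ℤ → ℝ} {c : ℝ} (h : c ≤ Av K f) : ∃ x : ℤ, c ≤ f x := by
  by_contra hc
  push Not at hc
  have h1 : Av K f < c := by
    unfold Av
    rw [div_lt_iff₀ (by positivity)]
    calc ∑ x ∈ Finset.range (3 ^ K), f (x : ℤ) < ∑ x ∈ Finset.range (3 ^ K), c := by
          apply Finset.sum_lt_sum_of_nonempty
          · exact ⟨0, Finset.mem_range.mpr (by positivity)⟩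
          · intro x _
            exact hc _
      _ = c * 3 ^ K := by rw [Finset.sum_const, Finset.card_range, nsmul_eq_mul]; push_cast; ring
  linarith

theorem per_dvd {K : ℕ} {f : ℤ → ℝ} (h : Per K f) {x y : ℤ} (hxy : (3 : ℤ) ^ K ∣ x - y) : f x = f y := by
  obtain ⟨z, hz⟩ := hxy
  have h1 : ∀ z : ℤ, f (y + 3 ^ K * z) = f y := by
    intro z
    induction z with
    | zero => simp
    | succ i ih =>
      rw [← ih]
      have := h (y + 3 ^ K * (i : ℤ))
      rw [← this]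
      congr 1
      ring
    | pred i ih =>
      rw [← ih]
      have := h (y + 3 ^ K * (-(i : ℤ) - 1))
      rw [← this]
      congr 1
      ring
  rw [← h1 z]
  congr 1
  linarith

open Classical in
theorem base_ev (hG : ST_GDM) : ∃ T : ℕ, 4000 ≤ T ∧ ∀ t : ℕ, T ≤ t →
    ∃ K0 : ℕ, ∃ c0 : ℤ, ∀ X : ℤ, (3 : ℤ) ^ K0 ∣ X - c0 → 3 / 4 ≤ u t (t / 16) (Vt t) X := by
  obtain ⟨C2, hC2, R1, hG⟩ := hG 1
  obtain ⟨T1, hT1⟩ := exists_nat_ge (3200 * C2)
  have hexp : ∃ T2 : ℕ, ∀ t : ℕ, T2 ≤ t → 2 * Real.exp (-((t : ℝ) ^ (1 / 10 : ℝ))) ≤ 1 / 100 := by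
    have h1 : Tendsto (fun t : ℕ => ((t : ℝ) ^ (1 / 10 : ℝ))) atTop atTop :=
      (tendsto_rpow_atTop (by norm_num)).comp tendsto_natCast_atTop_atTop
    have h2 := (Real.tendsto_exp_neg_atTop_nhds_zero).comp h1
    have h3 := (tendsto_order.1 h2).2 (1 / 200) (by norm_num)
    rw [eventually_atTop] at h3
    obtain ⟨T2, hT2⟩ := h3
    refine ⟨T2, fun t ht => ?_⟩
    have := hT2 t ht
    simp only [Function.comp] at this
    linarith
  obtain ⟨T2, hT2⟩ := hexp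
  refine ⟨max 4000 (max (32 * R1 + 32) (max (T1 + 1) T2)), le_max_left _ _, ?_⟩
  intro t ht
  simp only [max_le_iff] at ht
  obtain ⟨h4000, htR1, ht1, ht2⟩ := ht
  have ht4 : (4000 : ℝ) ≤ t := by exact_mod_cast h4000
  have htp : (0 : ℝ) < t := by linarith
  obtain ⟨r, hr⟩ : ∃ r : ℕ, r = t / 16 := ⟨_, rfl⟩
  rw [← hr]
  have hlev : ∀ k ∈ KS (r + t) 0, k ≤ r + t := fun k hk => (mem_KS.mp hk).1
  obtain ⟨f, hf⟩ : ∃ f : ℤ → ℝ, f = fun x => fr (r + t) x - bb r t (Vt t) x := ⟨_, rfl⟩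
  have hfp : Per (r + t) f := by
    intro x
    rw [hf]
    simp only
    rw [bb_per (Vt t) hlev x]
    congr 1
    unfold fr
    apply Finset.sum_congr rfl
    intro k hk
    exact (D_per k (r + t) k _).le (hlev k hk) x
  have hV1 : 10000 ≤ Vt t := by
    unfold Vt
    have : 1 / (t : ℝ) ≤ 1 := by rw [div_le_one htp]; linarith
    linarith
  have h1 : Av (r + t) (fr (r + t)) = ∑ k ∈ KS (r + t) 0, mass (r + t) k (fun _ => True) := by
    have h2 : fr (r + t) = fun N => ∑ k ∈ KS (r + t) 0, D k (r + t) k (fun _ => True) N := rfl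
    rw [h2, Av_sum]
    apply Finset.sum_congr rfl
    intro k hk
    rw [Av_le (D_per k (r + t) k _) (hlev k hk), Av_D]
  have h2 := mass_typ (n := r + t) (by omega)
  have h3 := hT2 (r + t) (by omega)
  have h4 := le_trans (Av_bb (Vt t) hlev) (hG r t (by omega) (by omega) (Vt t) (by linarith))
  have h5 : C2 / (r : ℝ) ^ 1 ≤ 1 / 100 := by
    rw [pow_one]
    have h6 : (t : ℝ) ≤ 32 * r := by
      have : t ≤ 32 * r := by omega
      exact_mod_cast this
    have h7 : (0 : ℝ) < r := by linarith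
    rw [div_le_div_iff₀ h7 (by norm_num)]
    have h8 : (T1 : ℝ) ≤ t := by exact_mod_cast (by omega : T1 ≤ t)
    linarith
  have h6 : C2 / (t : ℝ) ^ 1 ≤ 1 / 100 := by
    rw [pow_one, div_le_div_iff₀ htp (by norm_num)]
    have h8 : (T1 : ℝ) ≤ t := by exact_mod_cast (by omega : T1 ≤ t)
    linarith
  have h7 : 11 / Real.sqrt (Vt t) ≤ 11 / 100 := by
    apply div_le_div_of_nonneg_left (by norm_num) (by norm_num)
    apply Real.le_sqrt_of_sq_le
    linarith
  have h8 : 3 / 4 ≤ Av (r + t) f := by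
    have e : Av (r + t) f = Av (r + t) (fr (r + t)) - Av (r + t) (bb r t (Vt t)) := by
      rw [hf]
      unfold Av
      rw [Finset.sum_sub_distrib, sub_div]
    rw [e]
    linarith
  obtain ⟨c0, hc0⟩ := exists_ge_av h8
  refine ⟨r + t, c0, ?_⟩
  intro X hX
  have h9 : u t r (Vt t) X = hh r t (Vt t) X := by
    unfold u hh
    refine Finset.sum_congr rfl (fun N _ => ?_)
    by_cases h : Gn t (Vt t) N
    · rw [if_pos h]
      exact (if_pos h).symm
    · rw [if_neg h]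
      exact (if_neg h).symm
  rw [h9]
  have h10 := fr_le r t (Vt t) X
  have h11 := per_dvd hfp hX
  rw [hf] at h11 hc0
  simp only at h11 hc0
  linarith

theorem st_iter (hT : ST_TYP) (hM : ST_MIX) (hG : ST_GDM) : ST_ITER := by
  obtain ⟨T1, hT1, hstep⟩ := step_ev hT hM hG
  obtain ⟨T2, hT2, hbase⟩ := base_ev hG
  obtain ⟨t0, ht0⟩ : ∃ t0, t0 = max T1 T2 := ⟨_, rfl⟩
  have ht1 : T1 ≤ t0 := by rw [ht0]; exact le_max_left _ _
  have ht2 : T2 ≤ t0 := by rw [ht0]; exact le_max_right _ _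
  obtain ⟨K0, c0, hb⟩ := hbase t0 ht2
  obtain ⟨τ, hτ0, hτs⟩ : ∃ τ : ℕ → ℕ, τ 0 = t0 ∧ ∀ i, τ (i + 1) = τ i + τ i / 20 :=
    ⟨fun i => Nat.rec t0 (fun _ x => x + x / 20) i, rfl, fun i => rfl⟩
  have hτge : ∀ i, t0 ≤ τ i := by
    intro i
    induction i with
    | zero => rw [hτ0]
    | succ i ih => rw [hτs]; omega
  refine ⟨K0, c0, 10001, by norm_num, τ, ?_, ?_⟩
  · intro i
    have := hτge i
    rw [hτs]
    omega
  · intro X hX
    have key : ∀ i, 1 / 4 + 40 / (τ i : ℝ) ≤ u (τ i) (τ i / 16) (Vt (τ i)) X := by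
      intro i
      induction i with
      | zero =>
        rw [hτ0]
        refine le_trans ?_ (hb X hX)
        have h1 : (4000 : ℝ) ≤ t0 := by exact_mod_cast (by omega : 4000 ≤ t0)
        have h2 : 40 / (t0 : ℝ) ≤ 40 / 4000 := div_le_div_of_nonneg_left (by norm_num) (by norm_num) h1
        linarith
      | succ i ih =>
        have h1 := hstep (τ i) (le_trans ht1 (hτge i)) X
        rw [← hτs] at h1
        refine le_trans ?_ h1
        refine le_trans ?_ (sub_le_sub_right ih _)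
        have h2 : 4000 ≤ τ i := by have := hτge i; omega
        have h3 : (4000 : ℝ) ≤ τ i := by exact_mod_cast h2
        obtain ⟨x, hx⟩ : ∃ x : ℝ, x = (τ i : ℝ) := ⟨_, rfl⟩
        obtain ⟨y, hy⟩ : ∃ y : ℝ, y = (τ (i + 1) : ℝ) := ⟨_, rfl⟩
        have h4 : y ≤ 2 * x := by
          rw [hx, hy]
          have : τ (i + 1) ≤ 2 * τ i := by rw [hτs]; omega
          exact_mod_cast this
        have h5 : x ≤ 21 * (y - x) := by
          rw [hx, hy]
          have : 22 * τ i ≤ 21 * τ (i + 1) := by rw [hτs]; omega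
          have h6 : (22 : ℝ) * τ i ≤ 21 * τ (i + 1) := by exact_mod_cast this
          linarith
        rw [← hx] at h3 ⊢
        rw [← hy]
        have hx0 : 0 < x := by linarith
        have hy0 : 0 < y := by linarith
        have h6 : 40 / y ≤ 40 / x - 1 / x ^ 2 := by
          have e : 40 / x - 1 / x ^ 2 = (40 * x - 1) / x ^ 2 := by field_simp
          rw [e, div_le_div_iff₀ hy0 (by positivity)]
          nlinarith
        linarith
    intro i
    have h1 := key i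
    have h2 : (4000 : ℝ) ≤ τ i := by
      have h3 : 4000 ≤ τ i := by have := hτge i; omega
      exact_mod_cast h3
    have h3 : 0 ≤ 40 / (τ i : ℝ) := by positivity
    refine le_trans (by linarith) (le_trans h1 (u_mono ?_ X))
    unfold Vt
    have : 0 ≤ 1 / (τ i : ℝ) := by positivity
    linarith

end Pool.Agent.Helper1.PD
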