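import Pool.Agent.Helper1.PD.Iter
import Pool.Agent.Helper3.PD.Typ
import Pool.Agent.Helper44.PD.Mix

/-! The iteration theorem without hypotheses. -/

namespace Pool.Agent.Helper1.PD

theorem iter_all : ST_ITER := st_iter Pool.Agent.Helper3.PD.typ_J Pool.Agent.Helper44.PD.fr_dl Pool.Agent.Helper3.PD.Gd_mass

end Pool.Agent.Helper1.PD
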