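import Pool.Agent.Helper1.PD.Stmts
import Pool.Agent.Helper25.PD.Reach
import Pool.Agent.Helper3.PD.Trans

/-! From a residue class to all integers prime to three. -/

namespace Pool.Agent.Helper1.PD

open Pool.Agent.Helper3.ND Pool.Agent.Helper3.TD Pool.Agent.Helper3.PD

theorem main_of (h : ST_FINo) : FINo := by
  obtain ⟨K0, c0, B, R1, c, hc, H⟩ := h
  obtain ⟨E, hE⟩ := Pool.Agent.Helper25.PD.reach K0 c0 (B + 1)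
  have h2E : (0 : ℝ) < 2 ^ E := by positivity
  have hR1 : (0 : ℝ) ≤ R1 := Nat.cast_nonneg _
  refine ⟨min (c / 2 ^ E) (1 / (((R1 : ℝ) + 1) * 2 ^ E)), by positivity, ?_⟩
  intro a ha h3 x hx
  have ha0 : a ≠ 0 := by rintro rfl; exact h3 (dvd_zero _)
  have ha1 : (1 : ℝ) ≤ |(a : ℝ)| := by exact_mod_cast Int.one_le_abs ha0
  have hapos : 0 < |(a : ℝ)| := by linarith
  have hx0 : 0 < x := by linarith
  obtain ⟨X, e, he, hXa, hXc, hXB, hXle, hXp⟩ := hE a h3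
  have hX1 : (1 : ℤ) ≤ |X| := by
    push_cast at hXB
    have : (0 : ℤ) ≤ B := Int.natCast_nonneg B
    linarith
  have hXr : (1 : ℝ) ≤ |(X : ℝ)| := by exact_mod_cast hX1
  have hXpos : 0 < |(X : ℝ)| := by linarith
  have hXle' : |(X : ℝ)| ≤ 2 ^ E * |(a : ℝ)| := by
    have h1 : |(X : ℝ)| ≤ 2 ^ e * |(a : ℝ)| := by exact_mod_cast hXle
    refine le_trans h1 ?_
    have : (2 : ℝ) ^ e ≤ 2 ^ E := pow_le_pow_right₀ (by norm_num) he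
    gcongr
  rcases le_total ((R1 : ℝ) * |(X : ℝ)|) x with h | h
  · have h1 := H X hXc (by push_cast at hXB; omega) hXp (x / |(X : ℝ)|) (by rw [le_div_iff₀ hXpos]; exact h)
    rw [div_mul_cancel₀ _ hXpos.ne'] at h1
    have h2 : {N : ℤ | |(N : ℝ)| ≤ x ∧ N % 2 = 1 ∧ ∃ j : ℕ, T^[j] N = X}.ncard ≤
        {N : ℤ | |(N : ℝ)| ≤ x ∧ N % 2 = 1 ∧ ∃ k : ℕ, T^[k] N = a}.ncard := by
      apply Set.ncard_le_ncard _ (Pool.Agent.Helper3.PD.fin_abs _ x)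
      rintro N ⟨a1, a2, j, a3⟩
      exact ⟨a1, a2, e + j, by rw [Function.iterate_add_apply, a3, hXa]⟩
    have h2' : (({N : ℤ | |(N : ℝ)| ≤ x ∧ N % 2 = 1 ∧ ∃ j : ℕ, T^[j] N = X}.ncard : ℕ) : ℝ) ≤
        (({N : ℤ | |(N : ℝ)| ≤ x ∧ N % 2 = 1 ∧ ∃ k : ℕ, T^[k] N = a}.ncard : ℕ) : ℝ) := by exact_mod_cast h2
    refine le_trans ?_ (le_trans h1 h2')
    have h3 : min (c / 2 ^ E) (1 / (((R1 : ℝ) + 1) * 2 ^ E)) ≤ c / 2 ^ E := min_le_left _ _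
    have h4 : c * (x / |(X : ℝ)|) = c * x / |(X : ℝ)| := by ring
    rw [h4, div_le_div_iff₀ hapos hXpos]
    calc min (c / 2 ^ E) (1 / (((R1 : ℝ) + 1) * 2 ^ E)) * x * |(X : ℝ)| ≤ c / 2 ^ E * x * (2 ^ E * |(a : ℝ)|) := by gcongr
      _ = c * x * |(a : ℝ)| := by field_simp
  · have h1 : 1 ≤ {N : ℤ | |(N : ℝ)| ≤ x ∧ N % 2 = 1 ∧ ∃ k : ℕ, T^[k] N = a}.ncard :=
      (Set.ncard_pos (Pool.Agent.Helper3.PD.fin_abs _ x)).mpr ⟨a, hx, ha, 0, rfl⟩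
    have h1' : (1 : ℝ) ≤ (({N : ℤ | |(N : ℝ)| ≤ x ∧ N % 2 = 1 ∧ ∃ k : ℕ, T^[k] N = a}.ncard : ℕ) : ℝ) := by exact_mod_cast h1
    refine le_trans ?_ h1'
    rw [div_le_one hapos]
    have h4 : min (c / 2 ^ E) (1 / (((R1 : ℝ) + 1) * 2 ^ E)) ≤ 1 / (((R1 : ℝ) + 1) * 2 ^ E) := min_le_right _ _
    have h5 : x ≤ ((R1 : ℝ) + 1) * 2 ^ E * |(a : ℝ)| := by
      calc x ≤ R1 * |(X : ℝ)| := h
        _ ≤ (R1 + 1) * (2 ^ E * |(a : ℝ)|) := by gcongr; linarith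
        _ = _ := by ring
    calc min (c / 2 ^ E) (1 / (((R1 : ℝ) + 1) * 2 ^ E)) * x
        ≤ 1 / (((R1 : ℝ) + 1) * 2 ^ E) * (((R1 : ℝ) + 1) * 2 ^ E * |(a : ℝ)|) := by gcongr
      _ = |(a : ℝ)| := by field_simp

end Pool.Agent.Helper1.PD
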