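import Pool.Agent.Helper1.PD.Win

/-! One step of the pointwise lower bound. -/

namespace Pool.Agent.Helper1.PD

open Pool.Agent.Helper3.ND Pool.Agent.Helper3.TD

theorem cc_comp (t s : ℕ) (M : ℤ) : cc (t + s) M = 3 ^ od t (T^[s] M) * cc s M + 2 ^ s * cc t (T^[s] M) := by
  have h1 := affine s M
  have h2 := affine t (T^[s] M)
  have h3 := affine (t + s) M
  rw [Function.iterate_add_apply, add_comm t s, od_add, pow_add, pow_add] at h3
  rw [add_comm t s]
  have h4 : (2 : ℤ) ^ s * 2 ^ t * T^[t] (T^[s] M) = 2 ^ s * (2 ^ t * T^[t] (T^[s] M)) := by ring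
  rw [h4, h2] at h3
  linear_combination (-1) * h3 + (3 : ℤ) ^ od t (T^[s] M) * h1

/-- good words, for integers -/
def GdZ (r s : ℕ) (A : ℝ) (L : ℤ) : Prop :=
  TypK r (od r L) ∧ Jt s (od s (T^[r] L)) ∧ (cc s (T^[r] L) : ℝ) ≤ A * 2 ^ s

theorem Gd_iff (r s : ℕ) (A : ℝ) (y : ℕ) : Gd r s A y ↔ GdZ r s A (y : ℤ) := by
  unfold Gd GdZ
  rw [yy_cast, od_emod, cc_emod]

theorem GdZ_shift (r s : ℕ) (A : ℝ) (y m : ℤ) : GdZ r s A (y + 2 ^ (r + s) * m) ↔ GdZ r s A y := by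
  have e : (2 : ℤ) ^ (r + s) * m = 2 ^ r * (2 ^ s * m) := by rw [pow_add]; ring
  obtain ⟨h1, h2⟩ := shift r y (2 ^ s * m)
  have e2 : T^[r] y + 3 ^ od r y * (2 ^ s * m) = T^[r] y + 2 ^ s * (3 ^ od r y * m) := by ring
  unfold GdZ
  rw [e, h1, h2, e2, (shift s _ _).1, cc_shift]

theorem GdZ_emod (r s : ℕ) (A : ℝ) (L : ℤ) : Gd r s A (L % 2 ^ (r + s)).toNat ↔ GdZ r s A L := by
  have hp : (0 : ℤ) < 2 ^ (r + s) := by positivity
  rw [Gd_iff, Int.toNat_of_nonneg (Int.emod_nonneg _ hp.ne')]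
  have h := GdZ_shift r s A (L % 2 ^ (r + s)) (L / 2 ^ (r + s))
  rw [Int.emod_add_mul_ediv] at h
  exact h.symm

/-- density of the bad typical preimages -/
noncomputable def bb (r s : ℕ) (A : ℝ) (N : ℤ) : ℝ := ∑ k ∈ KS (r + s) 0, D k (r + s) k (fun y => ¬ Gd r s A y) N

open Classical in
theorem fr_eq (r : ℕ) (X : ℤ) : fr r X = ∑ L ∈ Pre r X, if TypK r (od r L) then wt r L else 0 := by
  unfold fr
  rw [D_eq_sum]
  apply Finset.sum_congr rfl
  intro L _
  by_cases h : TypK r (od r L)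
  · rw [if_pos h, if_pos ⟨mem_KS.mpr ⟨od_le r L, Nat.zero_le _, h⟩, trivial⟩]
  · rw [if_neg h, if_neg (fun h2 => h (mem_KS.mp h2.1).2.2)]

open Classical in
theorem bb_eq (r s : ℕ) (A : ℝ) (N : ℤ) : bb r s A N =
    ∑ L ∈ Pre (s + r) N, if TypK (r + s) (od (r + s) L) ∧ ¬ GdZ r s A L then wt (r + s) L else 0 := by
  unfold bb
  rw [D_eq_sum, add_comm s r]
  apply Finset.sum_congr rfl
  intro L _
  have hG := GdZ_emod r s A L
  by_cases h : TypK (r + s) (od (r + s) L) ∧ ¬ GdZ r s A L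
  · rw [if_pos h, if_pos ⟨mem_KS.mpr ⟨od_le (r + s) L, Nat.zero_le _, h.1⟩, fun h2 => h.2 (hG.mp h2)⟩]
  · rw [if_neg h, if_neg (fun h2 => h ⟨(mem_KS.mp h2.1).2.2, fun h3 => h2.2 (hG.mpr h3)⟩)]

open Classical in
/-- density of good continued preimages -/
noncomputable def hh (r s : ℕ) (A : ℝ) (N : ℤ) : ℝ :=
  ∑ M ∈ Pre s N, if Jt s (od s M) ∧ (cc s M : ℝ) ≤ A * 2 ^ s then wt s M * fr r M else 0

open Classical in
theorem hh_eq (r s : ℕ) (A : ℝ) (N : ℤ) : hh r s A N =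
    ∑ L ∈ Pre (s + r) N, if GdZ r s A L then wt (r + s) L else 0 := by
  unfold hh
  rw [sum_Pre_add]
  apply Finset.sum_congr rfl
  intro M _
  by_cases h : Jt s (od s M) ∧ (cc s M : ℝ) ≤ A * 2 ^ s
  · rw [if_pos h, fr_eq, Finset.mul_sum]
    apply Finset.sum_congr rfl
    intro L hL
    rw [mem_Pre] at hL
    by_cases h2 : TypK r (od r L)
    · rw [if_pos h2, if_pos (by unfold GdZ; rw [hL]; exact ⟨h2, h⟩), add_comm r s, wt_add, hL]
    · rw [if_neg h2, if_neg (fun h3 => h2 h3.1), mul_zero]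
  · rw [if_neg h]
    symm
    apply Finset.sum_eq_zero
    intro L hL
    rw [mem_Pre] at hL
    rw [if_neg]
    intro h3
    unfold GdZ at h3
    rw [hL] at h3
    exact h h3.2

theorem fr_le (r s : ℕ) (A : ℝ) (N : ℤ) : fr (r + s) N ≤ hh r s A N + bb r s A N := by
  classical
  rw [hh_eq, bb_eq, fr_eq, add_comm s r, ← Finset.sum_add_distrib]
  apply Finset.sum_le_sum
  intro L _
  have hw := (wt_pos (r + s) L).le
  by_cases h1 : TypK (r + s) (od (r + s) L)
  · by_cases h2 : GdZ r s A L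
    · rw [if_pos h1, if_pos h2, if_neg (fun h => h.2 h2)]
      linarith
    · rw [if_pos h1, if_neg h2, if_pos ⟨h1, h2⟩]
      linarith
  · rw [if_neg h1]
    apply add_nonneg
    · split_ifs
      · exact hw
      · exact le_rfl
    · split_ifs
      · exact hw
      · exact le_rfl

theorem bb_nonneg (r s : ℕ) (A : ℝ) (N : ℤ) : 0 ≤ bb r s A N := Finset.sum_nonneg (fun _ _ => D_nonneg _ _ _ _ _)

theorem bb_per {r s K : ℕ} (A : ℝ) (hK : ∀ k ∈ KS (r + s) 0, k ≤ K) : Per K (bb r s A) := by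
  intro x
  unfold bb
  apply Finset.sum_congr rfl
  intro k hk
  exact (D_per k (r + s) k _).le (hK k hk) x

open Classical in
theorem Av_bb {r s K : ℕ} (A : ℝ) (hK : ∀ k ∈ KS (r + s) 0, k ≤ K) : Av K (bb r s A) ≤
    (((Finset.range (2 ^ (r + s))).filter (fun y : ℕ => ¬ Gd r s A y)).card : ℝ) / 2 ^ (r + s) := by
  have h1 : Av K (bb r s A) = ∑ k ∈ KS (r + s) 0, mass (r + s) k (fun y => ¬ Gd r s A y) := by
    have h2 : bb r s A = fun N => ∑ k ∈ KS (r + s) 0, D k (r + s) k (fun y => ¬ Gd r s A y) N := rfl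
    rw [h2, Av_sum]
    apply Finset.sum_congr rfl
    intro k hk
    rw [Av_le (D_per k (r + s) k _) (hK k hk), Av_D]
  rw [h1]
  unfold mass
  rw [← Finset.sum_div]
  gcongr
  have : ∑ k ∈ KS (r + s) 0, ((Finset.range (2 ^ (r + s))).filter (fun y : ℕ => od (r + s) (y : ℤ) = k ∧ ¬ Gd r s A y)).card ≤
      ((Finset.range (2 ^ (r + s))).filter (fun y : ℕ => ¬ Gd r s A y)).card := by
    rw [← Finset.card_biUnion]
    · apply Finset.card_le_card
      intro y hy
      rw [Finset.mem_biUnion] at hy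
      obtain ⟨k, _, hk⟩ := hy
      rw [Finset.mem_filter] at hk ⊢
      exact ⟨hk.1, hk.2.2⟩
    · intro k _ k' _ hne
      rw [Function.onFun, Finset.disjoint_left]
      intro y hy hy'
      rw [Finset.mem_filter] at hy hy'
      exact hne (hy.2.1.symm.trans hy'.2.1)
  have h3 := (Nat.cast_le (α := ℝ)).mpr this
  rw [Nat.cast_sum] at h3
  refine le_trans (le_of_eq (Finset.sum_congr rfl (fun k _ => ?_))) h3
  congr

theorem Jt_add {t s k l : ℕ} (h1 : Jt t k) (h2 : Jt s l) : Jt (t + s) (k + l) := by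
  unfold Jt at *
  omega

theorem Gn_comp {t s : ℕ} {V V' A : ℝ} (hVV : ∀ k, Jt t k → V + A * (3 ^ k / 2 ^ t) ≤ V') {M : ℤ}
    (h1 : Gn t V (T^[s] M)) (h2 : Jt s (od s M) ∧ (cc s M : ℝ) ≤ A * 2 ^ s) : Gn (t + s) V' M := by
  obtain ⟨h3, h4⟩ := h1
  refine ⟨?_, ?_⟩
  · rw [add_comm t s, od_add, add_comm s t, add_comm (od s M)]
    exact Jt_add h3 h2.1
  · have h5 := cc_comp t s M
    have h6 : (cc (t + s) M : ℝ) = 3 ^ od t (T^[s] M) * cc s M + 2 ^ s * cc t (T^[s] M) := by exact_mod_cast h5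
    rw [h6, pow_add]
    have h7 := hVV _ h3
    obtain ⟨k, hk⟩ : ∃ k, k = od t (T^[s] M) := ⟨_, rfl⟩
    rw [← hk] at h7 ⊢
    have h2t : (0 : ℝ) < 2 ^ t := by positivity
    have h2s : (0 : ℝ) < 2 ^ s := by positivity
    have h3k : (0 : ℝ) < 3 ^ k := by positivity
    calc (3 : ℝ) ^ k * cc s M + 2 ^ s * cc t (T^[s] M) ≤ 3 ^ k * (A * 2 ^ s) + 2 ^ s * (V * 2 ^ t) := by
          apply add_le_add
          · exact mul_le_mul_of_nonneg_left h2.2 h3k.le
          · exact mul_le_mul_of_nonneg_left h4 h2s.le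
      _ = (V + A * (3 ^ k / 2 ^ t)) * (2 ^ t * 2 ^ s) := by field_simp; ring
      _ ≤ V' * (2 ^ t * 2 ^ s) := mul_le_mul_of_nonneg_right h7 (by positivity)

/-- **one step** -/
theorem step {t s r r' K : ℕ} {V V' A : ℝ} (hK : 8 * K ≤ t) (hV : 0 ≤ V)
    (hVV : ∀ k, Jt t k → V + A * (3 ^ k / 2 ^ t) ≤ V') (hp1 : Per K (fr (r' + s))) (hp2 : Per K (fr r))
    (hlev : ∀ k ∈ KS (r' + s) 0, k ≤ K) (X : ℤ) :
    u t r V X - ((t : ℝ) + 1) * ((V + 1) * (Av K (fun x => |fr (r' + s) x - fr r x|) + Av K (bb r' s A))) ≤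
      u (t + s) r' V' X := by
  classical
  obtain ⟨g, hg⟩ : ∃ g : ℤ → ℝ, g = fun x => |fr (r' + s) x - fr r x| + bb r' s A x := ⟨_, rfl⟩
  have hg0 : ∀ x, 0 ≤ g x := by
    intro x
    rw [hg]
    exact add_nonneg (abs_nonneg _) (bb_nonneg _ _ _ _)
  have hgp : Per K g := by
    intro x
    rw [hg]
    simp only
    rw [hp1 x, hp2 x, bb_per A hlev x]
  have hAv : Av K g = Av K (fun x => |fr (r' + s) x - fr r x|) + Av K (bb r' s A) := by
    rw [hg]
    exact Av_add K _ _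
  have h1 := window_J hK X hV hg0 hgp
  rw [hAv] at h1
  have h2 : u t r V X ≤ ∑ N ∈ Pre t X, (if Gn t V N then wt t N * hh r' s A N else 0) +
      ∑ N ∈ Pre t X, (if Gn t V N then wt t N * g N else 0) := by
    unfold u
    rw [← Finset.sum_add_distrib]
    apply Finset.sum_le_sum
    intro N _
    by_cases h : Gn t V N
    · rw [if_pos h, if_pos h, if_pos h, ← mul_add]
      apply mul_le_mul_of_nonneg_left _ (wt_pos t N).le
      have h3 := fr_le r' s A N
      have h4 := neg_abs_le (fr (r' + s) N - fr r N)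
      rw [hg]
      simp only
      linarith
    · rw [if_neg h, if_neg h, if_neg h, add_zero]
  have h3 : ∑ N ∈ Pre t X, (if Gn t V N then wt t N * hh r' s A N else 0) ≤ u (t + s) r' V' X := by
    unfold u
    rw [sum_Pre_add]
    apply Finset.sum_le_sum
    intro N _
    by_cases h : Gn t V N
    · rw [if_pos h]
      unfold hh
      rw [Finset.mul_sum]
      apply Finset.sum_le_sum
      intro M hM
      rw [mem_Pre] at hM
      have h5 : 0 ≤ wt (t + s) M * fr r' M := mul_nonneg (wt_pos _ _).le (fr_nonneg _ _)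
      by_cases h4 : Jt s (od s M) ∧ (cc s M : ℝ) ≤ A * 2 ^ s
      · rw [if_pos h4, if_pos (Gn_comp hVV (by rw [hM]; exact h) h4), wt_add, hM]
        apply le_of_eq
        ring
      · rw [if_neg h4, mul_zero]
        split_ifs
        · exact h5
        · exact le_rfl
    · rw [if_neg h]
      apply Finset.sum_nonneg
      intro M _
      split_ifs
      · exact mul_nonneg (wt_pos _ _).le (fr_nonneg _ _)
      · exact le_rfl
  linarith

end Pool.Agent.Helper1.PD
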