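import Pool.Agent.Helper1.PD.Step

/-! Statements of the modules of the positive density theorem. -/

namespace Pool.Agent.Helper1.PD

open Pool.Agent.Helper3.ND Pool.Agent.Helper3.TD

def ST_TYP : Prop := ∃ R0 : ℕ, ∀ r : ℕ, R0 ≤ r → ∀ k : ℕ, TypK r k → Jt r k

def ST_MIX : Prop := ∀ q : ℕ, ∃ C : ℝ, 0 < C ∧ ∃ m0 : ℕ, ∀ m r K : ℕ, m0 ≤ m → 10 * m ≤ r → r ≤ 1000 * m →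
  201 * r ≤ 400 * K → Av K (fun x => |fr r x - dl m (3 * m) x|) ≤ C / (m : ℝ) ^ q

open Classical in
def ST_GDM : Prop := ∀ q : ℕ, ∃ C : ℝ, 0 < C ∧ ∃ R0 : ℕ, ∀ r s : ℕ, R0 ≤ r → R0 ≤ s → ∀ A : ℝ, 1 ≤ A →
  (((Finset.range (2 ^ (r + s))).filter (fun y : ℕ => ¬ Gd r s A y)).card : ℝ) / 2 ^ (r + s) ≤
    C / (r : ℝ) ^ q + C / (s : ℝ) ^ q + 11 / Real.sqrt A

/-- a residue class and a sequence of scales on which the truncated densities stay above `1 / 4` -/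
def ST_ITER : Prop := ∃ K0 : ℕ, ∃ c0 : ℤ, ∃ V1 : ℝ, 1 ≤ V1 ∧ ∃ τ : ℕ → ℕ,
  (∀ i, τ i < τ (i + 1) ∧ τ (i + 1) ≤ τ i + τ i / 20) ∧
  ∀ X : ℤ, (3 : ℤ) ^ K0 ∣ X - c0 → ∀ i, 1 / 4 ≤ u (τ i) (τ i / 16) V1 X

/-- many predecessors of all `X` in a residue class -/
def ST_FIN : Prop := ∃ K0 : ℕ, ∃ c0 : ℤ, ∃ B R1 : ℕ, ∃ c : ℝ, 0 < c ∧ ∀ X : ℤ, (3 : ℤ) ^ K0 ∣ X - c0 → (B : ℤ) ≤ |X| →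
  (∀ j : ℕ, 1 ≤ j → T^[j] X ≠ X) → ∀ R : ℝ, (R1 : ℝ) ≤ R →
    c * R ≤ (Nat.card {N : ℤ // |(N : ℝ)| ≤ R * |(X : ℝ)| ∧ ∃ j : ℕ, T^[j] N = X} : ℝ)

/-- many odd predecessors of all `X` in a residue class -/
def ST_FINo : Prop := ∃ K0 : ℕ, ∃ c0 : ℤ, ∃ B R1 : ℕ, ∃ c : ℝ, 0 < c ∧ ∀ X : ℤ, (3 : ℤ) ^ K0 ∣ X - c0 → (B : ℤ) ≤ |X| →
  (∀ j : ℕ, 1 ≤ j → T^[j] X ≠ X) → ∀ R : ℝ, (R1 : ℝ) ≤ R →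
    c * R ≤ (({N : ℤ | |(N : ℝ)| ≤ R * |(X : ℝ)| ∧ N % 2 = 1 ∧ ∃ j : ℕ, T^[j] N = X}.ncard : ℕ) : ℝ)

def ST_REACH : Prop := ∀ (K0 : ℕ) (c0 : ℤ) (B : ℕ), ∃ E : ℕ, ∀ a : ℤ, ¬ (3 : ℤ) ∣ a → ∃ X : ℤ, ∃ e : ℕ, e ≤ E ∧
  T^[e] X = a ∧ (3 : ℤ) ^ K0 ∣ X - c0 ∧ (B : ℤ) ≤ |X| ∧ |X| ≤ 2 ^ e * |a| ∧ ∀ j : ℕ, 1 ≤ j → T^[j] X ≠ X

/-- uniform linear lower bound for all sets of predecessors -/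
def ST_MAIN : Prop := ∃ c : ℝ, 0 < c ∧ ∀ a : ℤ, ¬ (3 : ℤ) ∣ a → ∀ x : ℝ, |(a : ℝ)| ≤ x →
  c * (x / |(a : ℝ)|) ≤ (Nat.card {N : ℤ // |(N : ℝ)| ≤ x ∧ ∃ j : ℕ, T^[j] N = a} : ℝ)

end Pool.Agent.Helper1.PD
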