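import Pool.Agent.Helper1.PD.Defs

/-! The window lemma. -/

namespace Pool.Agent.Helper1.PD

open Pool.Agent.Helper3.ND Pool.Agent.Helper3.TD

theorem block_shift {q : ℕ} {g : ℤ → ℝ} (h : ∀ x : ℤ, g (x + q) = g x) (a : ℤ) :
    ∑ x ∈ Finset.range q, g (a + 1 + x) = ∑ x ∈ Finset.range q, g (a + x) := by
  have h1 := Finset.sum_range_succ (fun x : ℕ => g (a + x)) q
  have h2 := Finset.sum_range_succ' (fun x : ℕ => g (a + x)) q
  rw [h1] at h2
  have h3 : g (a + (q : ℤ)) = g (a + ((0 : ℕ) : ℤ)) := by rw [h a]; simp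
  rw [h3] at h2
  have h4 := add_right_cancel h2
  rw [h4]
  apply Finset.sum_congr rfl
  intro x _
  congr 1
  push_cast
  ring

theorem block_sum {q : ℕ} {g : ℤ → ℝ} (h : ∀ x : ℤ, g (x + q) = g x) (a : ℤ) :
    ∑ x ∈ Finset.range q, g (a + x) = ∑ x ∈ Finset.range q, g (x : ℤ) := by
  induction a with
  | zero => simp
  | succ i ih => rw [block_shift h, ih]
  | pred i ih =>
    rw [← ih, ← block_shift h (-(i : ℤ) - 1)]
    apply Finset.sum_congr rfl
    intro x _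
    congr 1
    ring

theorem blocks_sum {q : ℕ} {g : ℤ → ℝ} (h : ∀ x : ℤ, g (x + q) = g x) (J : ℕ) : ∀ a : ℤ,
    ∑ x ∈ Finset.range (J * q), g (a + x) = J * ∑ x ∈ Finset.range q, g (x : ℤ) := by
  induction J with
  | zero => intro a; simp
  | succ J ih =>
    intro a
    rw [add_mul, one_mul, Finset.sum_range_add, ih a]
    have h1 : ∑ x ∈ Finset.range q, g (a + ((J * q + x : ℕ) : ℤ)) = ∑ x ∈ Finset.range q, g (x : ℤ) := by
      rw [← block_sum h (a + (J * q : ℕ))]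
      apply Finset.sum_congr rfl
      intro x _
      congr 1
      push_cast
      ring
    rw [h1]
    push_cast
    ring

/-- **window lemma** -/
theorem window {t k K : ℕ} (X : ℤ) {V : ℝ} (hV : 0 ≤ V) {g : ℤ → ℝ} (hg : ∀ x, 0 ≤ g x) (hp : Per K g)
    (hkK : 3 ^ (k + K) ≤ 2 ^ t) (S : Finset ℤ) (hS : ∀ N ∈ S, T^[t] N = X ∧ od t N = k ∧ (cc t N : ℝ) ≤ V * 2 ^ t) :
    ∑ N ∈ S, wt t N * g N ≤ (V + 1) * Av K g := by
  classical
  have h3k : (0 : ℝ) < 3 ^ k := by positivity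
  have h2t : (0 : ℝ) < 2 ^ t := by positivity
  have hq : ∀ x : ℤ, g (x + ((3 ^ K : ℕ) : ℤ)) = g x := by
    intro x
    have := hp x
    push_cast
    exact this
  have hAv0 : 0 ≤ Av K g := Av_nonneg hg
  have hw : ∑ N ∈ S, wt t N * g N = (3 : ℝ) ^ k / 2 ^ t * ∑ N ∈ S, g N := by
    rw [Finset.mul_sum]
    apply Finset.sum_congr rfl
    intro N hN
    unfold wt
    rw [(hS N hN).2.1]
  rcases S.eq_empty_or_nonempty with hE | ⟨N0, hN0⟩
  · rw [hE, Finset.sum_empty]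
    positivity
  obtain ⟨a, ha⟩ : ∃ a : ℤ, a = ⌈((2 : ℝ) ^ t * X - V * 2 ^ t) / 3 ^ k⌉ := ⟨_, rfl⟩
  obtain ⟨b, hb⟩ : ∃ b : ℤ, b = ⌊((2 : ℝ) ^ t * X) / 3 ^ k⌋ := ⟨_, rfl⟩
  have hab : ∀ N ∈ S, a ≤ N ∧ N ≤ b := by
    intro N hN
    obtain ⟨h1, h2, h3⟩ := hS N hN
    have h4 := affine t N
    rw [h1, h2] at h4
    have h5 : (2 : ℝ) ^ t * X = 3 ^ k * N + cc t N := by exact_mod_cast h4
    have h6 : (0 : ℝ) ≤ cc t N := by exact_mod_cast cc_nonneg t N
    constructor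
    · rw [ha, Int.ceil_le, div_le_iff₀ h3k]
      linarith
    · rw [hb, Int.le_floor, le_div_iff₀ h3k]
      linarith
  have hab0 : a ≤ b := le_trans (hab N0 hN0).1 (hab N0 hN0).2
  have hlen : ((b - a : ℤ) : ℝ) ≤ V * 2 ^ t / 3 ^ k := by
    have h1 : (b : ℝ) ≤ (2 : ℝ) ^ t * X / 3 ^ k := by rw [hb]; exact Int.floor_le _
    have h2 : ((2 : ℝ) ^ t * X - V * 2 ^ t) / 3 ^ k ≤ a := by rw [ha]; exact Int.le_ceil _
    rw [sub_div] at h2
    push_cast
    linarith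
  obtain ⟨q, hqd⟩ : ∃ q : ℕ, q = 3 ^ K := ⟨_, rfl⟩
  have hq0 : 0 < q := by rw [hqd]; positivity
  obtain ⟨d, hd⟩ : ∃ d : ℕ, (d : ℤ) = b - a := ⟨(b - a).toNat, Int.toNat_of_nonneg (by omega)⟩
  obtain ⟨J, hJ⟩ : ∃ J : ℕ, J = d / q + 1 := ⟨_, rfl⟩
  have hJ1 : d < J * q := by
    rw [hJ]
    have := Nat.lt_div_mul_add (a := d) hq0
    linarith
  have hsub : S ⊆ (Finset.range (J * q)).image (fun x : ℕ => a + (x : ℤ)) := by
    intro N hN
    obtain ⟨h1, h2⟩ := hab N hN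
    rw [Finset.mem_image]
    refine ⟨(N - a).toNat, ?_, by omega⟩
    rw [Finset.mem_range]
    omega
  have h1 : ∑ N ∈ S, g N ≤ J * (q * Av K g) := by
    refine le_trans (Finset.sum_le_sum_of_subset_of_nonneg hsub (fun x _ _ => hg x)) ?_
    rw [Finset.sum_image (fun x _ y _ hxy => by simpa using hxy)]
    have h2 := blocks_sum (q := q) (g := g) (by rw [hqd]; exact hq) J a
    rw [h2]
    apply le_of_eq
    congr 1
    unfold Av
    rw [hqd]
    push_cast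
    field_simp
  have hJr : (J : ℝ) * q ≤ V * 2 ^ t / 3 ^ k + q := by
    have h2 : d / q * q ≤ d := Nat.div_mul_le_self d q
    have h3 : ((d / q : ℕ) : ℝ) * q ≤ d := by exact_mod_cast h2
    have h4 : (d : ℝ) ≤ V * 2 ^ t / 3 ^ k := by
      refine le_trans (le_of_eq ?_) hlen
      rw [← hd]
      simp
    rw [hJ]
    push_cast
    nlinarith
  have hkK' : (3 : ℝ) ^ k * q ≤ 2 ^ t := by
    rw [hqd]
    push_cast
    rw [← pow_add]
    exact_mod_cast hkK
  rw [hw]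
  calc (3 : ℝ) ^ k / 2 ^ t * ∑ N ∈ S, g N ≤ (3 : ℝ) ^ k / 2 ^ t * (J * (q * Av K g)) :=
        mul_le_mul_of_nonneg_left h1 (by positivity)
    _ = (3 : ℝ) ^ k / 2 ^ t * (J * q) * Av K g := by ring
    _ ≤ (3 : ℝ) ^ k / 2 ^ t * (V * 2 ^ t / 3 ^ k + q) * Av K g := by gcongr
    _ = (V + 3 ^ k * q / 2 ^ t) * Av K g := by field_simp
    _ ≤ (V + 1) * Av K g := by
        apply mul_le_mul_of_nonneg_right _ hAv0
        have : (3 : ℝ) ^ k * q / 2 ^ t ≤ 1 := by rw [div_le_one h2t]; exact hkK'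
        linarith

theorem pow_cond {t k K : ℕ} (h1 : 200 * k ≤ 101 * t) (h2 : 8 * K ≤ t) : 3 ^ (k + K) ≤ 2 ^ t := by
  have h3 : 100 * (k + K) ≤ 63 * t := by omega
  have h4 : (3 ^ (k + K)) ^ 100 ≤ (2 ^ t) ^ 100 := by
    calc (3 ^ (k + K)) ^ 100 = 3 ^ (100 * (k + K)) := by rw [← pow_mul, mul_comm]
      _ ≤ 3 ^ (63 * t) := Nat.pow_le_pow_right (by norm_num) h3
      _ = (3 ^ 63) ^ t := by rw [pow_mul]
      _ ≤ (2 ^ 100) ^ t := Nat.pow_le_pow_left (by norm_num) t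
      _ = (2 ^ t) ^ 100 := by rw [← pow_mul, ← pow_mul, mul_comm]
  exact (Nat.pow_le_pow_iff_left (by norm_num)).mp h4

open Classical in
/-- window lemma summed over the numbers of odd steps -/
theorem window_J {t K : ℕ} (hK : 8 * K ≤ t) (X : ℤ) {V : ℝ} (hV : 0 ≤ V) {g : ℤ → ℝ} (hg : ∀ x, 0 ≤ g x) (hp : Per K g) :
    ∑ N ∈ Pre t X, (if Gn t V N then wt t N * g N else 0) ≤ ((t : ℝ) + 1) * ((V + 1) * Av K g) := by
  have h1 : ∑ N ∈ Pre t X, (if Gn t V N then wt t N * g N else 0) =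
      ∑ k ∈ Finset.range (t + 1), ∑ N ∈ (Pre t X).filter (fun N => Gn t V N ∧ od t N = k), wt t N * g N := by
    have h2 : ∀ k ∈ Finset.range (t + 1), ∑ N ∈ (Pre t X).filter (fun N => Gn t V N ∧ od t N = k), wt t N * g N =
        ∑ N ∈ Pre t X, if Gn t V N ∧ od t N = k then wt t N * g N else 0 := by
      intro k _
      rw [Finset.sum_filter]
    rw [Finset.sum_congr rfl h2, Finset.sum_comm]
    apply Finset.sum_congr rfl
    intro N _
    have h3 : od t N ∈ Finset.range (t + 1) := by rw [Finset.mem_range]; have := od_le t N; omega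
    rw [Finset.sum_eq_single_of_mem _ h3]
    · by_cases h4 : Gn t V N
      · rw [if_pos h4, if_pos ⟨h4, rfl⟩]
      · rw [if_neg h4, if_neg (fun h => h4 h.1)]
    · intro k _ hne
      rw [if_neg (fun h => hne h.2.symm)]
  rw [h1]
  have h2 : ∀ k ∈ Finset.range (t + 1), ∑ N ∈ (Pre t X).filter (fun N => Gn t V N ∧ od t N = k), wt t N * g N ≤
      (V + 1) * Av K g := by
    intro k _
    by_cases hk : 200 * k ≤ 101 * t
    · apply window X hV hg hp (pow_cond hk hK)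
      intro N hN
      rw [Finset.mem_filter, mem_Pre] at hN
      exact ⟨hN.1, hN.2.2, hN.2.1.2⟩
    · rw [Finset.filter_false_of_mem, Finset.sum_empty]
      · have := Av_nonneg (N := K) hg
        positivity
      · rintro N _ ⟨h3, h4⟩
        have := h3.1.2
        rw [h4] at this
        omega
  refine le_trans (Finset.sum_le_sum h2) ?_
  rw [Finset.sum_const, Finset.card_range, nsmul_eq_mul]
  push_cast
  exact le_rfl

end Pool.Agent.Helper1.PD
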